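import Pool.Agent.V7H85.OK.Fin
import Pool.Agent.V7H85.OK.MT
import Pool.Agent.V7H85.OK.DET2
import Pool.Agent.V7H39.OK.POLY
import Pool.Agent.V7H87.OK.ALT
import Pool.Agent.V7H89.OK.CHP
import Pool.Agent.V7H31.OK.DYN
import Pool.Agent.V7H85.OK.SPEC
import Pool.Agent.V7H68.OK.DET1

/-!
# Simple nonzero roots in the Okamoto polynomial hierarchies, for `3 N ≤ 2 m`

Let `p_n` be the coefficient of `ε ^ n` in `exp (ε ^ m + z ε)` and let `Q_N`, `R_N` be the monic
multiples of the determinants of the `N × N` matrices `(p_(3 i - j))`, `(p_(3 i - 1 - j))`. We prove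
that all the nonzero roots of `Q_N` and `R_N` are simple, and that `z ^ m` is real for all these
roots, if `3 N ≤ 2 m` (for `R_N` also if `3 N = 2 m + 1`). The nonzero roots exist only for
`m < 3 N`, so this is the upper half of the range of `m`; the number of the orbits of nonzero roots
is unbounded.

Proof: up to a power of `z` the determinant is `det (1 + y T)` with `y = z ^ (-m)`, where `T` acts on
the polynomials `P` of degree `< N` which vanish at the numbers `b_i = 3 i + c < m` (`c = 2`,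
respectively `c = 1`, `0 ≤ i < N`): the values of `T P` at the other `b_i` are
`b_i ! / (b_i - m)! * P (b_i - m)`. The points `b_i - m` are interlaced with the zeros `b_i < m`, so
counting the zeros of `P` shows that `T` does not decrease the number of sign changes of the vector
of the values at the `b_i ≥ m`, in the strong sense (weak changes of `P` are at most strict changes
of `T P`). A real plane invariant under `T` on which `T` has two eigenvalues of the same modulus
contains a vector with first coordinate zero, whose weak and strict numbers differ, and this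
contradicts the recurrence of the orbits in the plane. So the nonzero eigenvalues of `T` are real and
simple.
-/

set_option autoImplicit false

namespace Pool.Agent.Results.MP_1774d7_an.SimpleRootsH85

open Polynomial Finset

/-- The polynomial `p_n` for the parameter `m`: the coefficient of `ε ^ n` in
`exp (ε ^ m + z ε) = ∑_a ε ^ (m a) / a! * ∑_b z ^ b ε ^ b / b!`; it is zero for negative `n`. -/
noncomputable def p (m : ℕ) (n : ℤ) : ℂ[X] :=
  if 0 ≤ n then ∑ a ∈ range (n.toNat + 1), if m * a ≤ n.toNat then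
    C ((((n.toNat - m * a).factorial : ℂ) * (a.factorial : ℂ))⁻¹) * X ^ (n.toNat - m * a) else 0
  else 0

/-- The constant `c_N`. -/
noncomputable def cQ (N : ℕ) : ℂ := (3 ^ (N * (N - 1) / 2))⁻¹ *
  ∏ k ∈ Icc 1 N, ((3 * k - 1).factorial : ℂ) / ((k - 1).factorial : ℂ)

/-- The constant `d_N`. -/
noncomputable def dR (N : ℕ) : ℂ := (3 ^ (N * (N - 1) / 2))⁻¹ *
  ∏ k ∈ Icc 1 N, ((3 * k - 2).factorial : ℂ) / ((k - 1).factorial : ℂ)

/-- The polynomial `Q_N`: `c_N` times the determinant of `p_(3 i - j)`, `1 ≤ i, j ≤ N`. -/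
noncomputable def Q (m N : ℕ) : ℂ[X] := C (cQ N) * Matrix.det (fun i j : Fin N =>
  p m (3 * ((i : ℤ) + 1) - ((j : ℤ) + 1)))

/-- The polynomial `R_N`: `d_N` times the determinant of `p_(3 i - 1 - j)`, `1 ≤ i, j ≤ N`. -/
noncomputable def R (m N : ℕ) : ℂ[X] := C (dR N) * Matrix.det (fun i j : Fin N =>
  p m (3 * ((i : ℤ) + 1) - 1 - ((j : ℤ) + 1)))

theorem cQ_ne (N : ℕ) : cQ N ≠ 0 := by
  refine mul_ne_zero (inv_ne_zero (pow_ne_zero _ (by norm_num))) (Finset.prod_ne_zero_iff.2 ?_)
  intro k _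
  exact div_ne_zero (by exact_mod_cast Nat.factorial_ne_zero _)
    (by exact_mod_cast Nat.factorial_ne_zero _)

theorem dR_ne (N : ℕ) : dR N ≠ 0 := by
  refine mul_ne_zero (inv_ne_zero (pow_ne_zero _ (by norm_num))) (Finset.prod_ne_zero_iff.2 ?_)
  intro k _
  exact div_ne_zero (by exact_mod_cast Nat.factorial_ne_zero _)
    (by exact_mod_cast Nat.factorial_ne_zero _)

theorem p_eq (m c : ℕ) (i j : ℕ) (n : ℤ) (h : n = 3 * (i : ℤ) + c - j) :
    p m n = if j ≤ 3 * i + c then Pool.Agent.V7H85.OK.pm m (3 * i + c - j) else 0 := by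
  unfold p Pool.Agent.V7H85.OK.pm
  by_cases hj : j ≤ 3 * i + c
  · have h1 : 0 ≤ n := by omega
    have h2 : n.toNat = 3 * i + c - j := by omega
    rw [if_pos h1, if_pos hj, h2]
  · rw [if_neg (by omega), if_neg hj]

theorem Q_eq (m N : ℕ) : Q m N = C (cQ N) * (Pool.Agent.V7H85.OK.PM m 2 N).det := by
  unfold Q
  congr 2
  ext1 i j
  exact p_eq m 2 i j _ (by push_cast; ring)

theorem R_eq (m N : ℕ) : R m N = C (dR N) * (Pool.Agent.V7H85.OK.PM m 1 N).det := by
  unfold R
  congr 2
  ext1 i j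
  exact p_eq m 1 i j _ (by push_cast; ring)

theorem scale {a : ℂ} (ha : a ≠ 0) (D : ℂ[X]) (z : ℂ) (h : (C a * D).IsRoot z) :
    D.IsRoot z ∧ (C a * D).rootMultiplicity z = D.rootMultiplicity z := by
  constructor
  · have h1 : eval z (C a * D) = 0 := h
    rw [eval_mul, eval_C] at h1
    exact (mul_eq_zero.1 h1).resolve_left ha
  · by_cases hD : D = 0
    · rw [hD, mul_zero]
    · rw [rootMultiplicity_mul (mul_ne_zero (C_ne_zero.2 ha) hD), rootMultiplicity_C, zero_add]

/-- the pieces together -/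
theorem roots (m c N : ℕ) (hm : 2 ≤ m) (hc1 : 1 ≤ c) (hc2 : c ≤ 2) (hN : 3 * N + c < 2 * m + 3)
    (z : ℂ) (hz : z ≠ 0) (hroot : (Pool.Agent.V7H85.OK.PM m c N).det.IsRoot z) :
    (Pool.Agent.V7H85.OK.PM m c N).det.rootMultiplicity z = 1 ∧ (z ^ m).im = 0 := by
  refine Pool.Agent.V7H85.OK.main Pool.Agent.V7H68.OK.t_DET1 Pool.Agent.V7H85.OK.t_DET2
    (Pool.Agent.V7H85.OK.t_MT Pool.Agent.V7H39.OK.t_POLY Pool.Agent.V7H87.OK.t_ALT)
    (fun w M hM => ?_) m c N hm hc1 hc2 hN z hz hroot
  have h := Pool.Agent.V7H31.OK.t_DYN Pool.Agent.V7H89.OK.t_CHP w M hM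
  exact Pool.Agent.V7H85.OK.t_SPEC w M h.1 h.2.1 h.2.2

/-- **The nonzero roots of `Q_N` and `R_N` are simple for `3 N ≤ 2 m`** (for `R_N` also for
`3 N = 2 m + 1`), and `z ^ m` is real for all these roots. -/
theorem result (m N : ℕ) (hm : 2 ≤ m) :
    (3 * N ≤ 2 * m → ∀ z : ℂ, z ≠ 0 → (Q m N).IsRoot z →
      (Q m N).rootMultiplicity z = 1 ∧ (z ^ m).im = 0) ∧
    (3 * N ≤ 2 * m + 1 → ∀ z : ℂ, z ≠ 0 → (R m N).IsRoot z →
      (R m N).rootMultiplicity z = 1 ∧ (z ^ m).im = 0) := by
  constructor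
  · intro h z hz hroot
    rw [Q_eq] at hroot ⊢
    have h1 := scale (cQ_ne N) _ z hroot
    rw [h1.2]
    exact roots m 2 N hm (by norm_num) le_rfl (by omega) z hz h1.1
  · intro h z hz hroot
    rw [R_eq] at hroot ⊢
    have h1 := scale (dR_ne N) _ z hroot
    rw [h1.2]
    exact roots m 1 N hm le_rfl (by norm_num) (by omega) z hz h1.1

end Pool.Agent.Results.MP_1774d7_an.SimpleRootsH85
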